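import Mathlib
import Pool.Graph.R_seed8.Helper844.FC.PatSC
import Pool.Graph.R_seed8.Helper844.FC.RelA
import Pool.Graph.R_seed8.Helper844.FC.RelE
set_option autoImplicit false
namespace Pool.Agent.H47.FC

open Pool.Agent.Helper844.FC

/-! The gaps of the patterns are short, and the patterns do not backtrack. -/

theorem len_mul (g h : W) : WL.len (g * h) ≤ WL.len g + WL.len h := by
  have := WL.fp g⁻¹ h 1 1
  simp only [inv_inv, inv_one, mul_one, WL.len_one] at this
  rw [WL.len_inv h] at this
  omega

theorem len_letter (b : Bool) (k : ℤ) : WL.len (letter b k) ≤ 1 := by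
  by_cases hk : k = 0
  · subst hk
    rw [letter_zero, WL.len_one]; omega
  · have hr : Red [(b, k)] := ⟨by simpa using hk, by simp⟩
    have h := WL_pr hr
    rw [pr_cons, pr_nil, mul_one] at h
    rw [h]; simp

theorem len_fac {z : W} (hz : z ∈ Fac) : WL.len z ≤ 1 := by
  obtain ⟨b, k, rfl⟩ := hz
  exact len_letter b k

/-- gap bound predicate -/
def GB (m : ℕ) (P : Pat) : Prop := ∀ q ∈ P, WL.len q.2 ≤ m

theorem gb_tailP (c : List W) (hc : ∀ u ∈ c, WL.len u ≤ 5) : GB 10 (tailP c) := by
  induction c with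
  | nil => intro q hq; simp [tailP] at hq
  | cons a r ih =>
    cases r with
    | nil =>
      intro q hq
      simp only [tailP, List.mem_singleton] at hq
      subst hq
      have := hc a (by simp)
      simp only [WL.len_inv]; omega
    | cons d r =>
      intro q hq
      simp only [tailP, List.mem_cons] at hq
      rcases hq with rfl | hq
      · have h1 := hc a (by simp)
        have h2 := hc d (by simp)
        have h3 := len_mul a⁻¹ d
        rw [WL.len_inv] at h3
        simp only; omega
      · exact ih (fun u hu => hc u (List.mem_cons_of_mem _ hu)) q (by simpa using hq)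

theorem gb_rhoP (c : List W) (hc : ∀ u ∈ c, WL.len u ≤ 5) : GB 10 (rhoP c) := by
  intro q hq
  simp only [rhoP, List.mem_cons] at hq
  rcases hq with rfl | hq
  · cases c with
    | nil => simp [WL.len_one]
    | cons a r => have := hc a (by simp); simp only [List.headD_cons]; omega
  · exact gb_tailP c hc q hq

theorem gb_powP (c : List W) (hc : ∀ u ∈ c, WL.len u ≤ 5) : GB 10 (powP c) := by
  intro q hq
  unfold powP at hq
  rw [List.mem_flatten] at hq
  obtain ⟨l, hl, hq⟩ := hq
  rw [List.mem_replicate] at hl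
  rw [hl.2] at hq
  exact gb_rhoP c hc q hq

theorem gb_addLast (P : Pat) (g : W) (m k : ℕ) (hP : GB m P) (hg : WL.len g ≤ k) :
    GB (m + k) (addLast P g) := by
  induction P with
  | nil => intro q hq; simp [addLast] at hq
  | cons a r ih =>
    cases r with
    | nil =>
      intro q hq
      simp only [addLast, List.mem_singleton] at hq
      subst hq
      have := hP a (by simp)
      have := len_mul a.2 g
      simp only; omega
    | cons d r =>
      intro q hq
      simp only [addLast, List.mem_cons] at hq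
      rcases hq with rfl | hq
      · have := hP q (by simp)
        omega
      · exact ih (fun u hu => hP u (List.mem_cons_of_mem _ hu)) q (by simpa using hq)

theorem gb_revP (m : ℕ) (P : Pat) : ∀ (u : W), WL.len u ≤ m → GB m P →
    WL.len (revP u P).1 ≤ m ∧ GB m (revP u P).2 := by
  induction P with
  | nil =>
    intro u hu _
    refine ⟨by simp only [revP, WL.len_inv]; exact hu, ?_⟩
    intro q hq
    simp [revP] at hq
  | cons a r ih =>
    intro u hu hP
    have h := ih a.2 (hP a (by simp)) (fun q hq => hP q (List.mem_cons_of_mem _ hq))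
    refine ⟨h.1, ?_⟩
    intro q hq
    simp only [revP, List.mem_append, List.mem_singleton] at hq
    rcases hq with hq | rfl
    · exact h.2 q hq
    · simp only [WL.len_inv]; exact hu

theorem gb_mono {m k : ℕ} (h : m ≤ k) {P : Pat} (hP : GB m P) : GB k P :=
  fun q hq => (hP q hq).trans h

theorem gb_patRule (c : List W) (hc : ∀ u ∈ c, WL.len u ≤ 5) (z : W) (hz : WL.len z ≤ 1) (PP : Pat)
    (hPP : GB 10 PP) : GB 12 (patRule c z PP) := by
  have hr := gb_revP 10 PP z⁻¹ (by rw [WL.len_inv]; omega) hPP
  intro q hq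
  simp only [patRule, List.mem_cons, List.mem_append] at hq
  rcases hq with rfl | hq | rfl | hq | hq
  · simp only; omega
  · have := hr.2 q hq; omega
  · simp [WL.len_one]
  · have := gb_addLast (rhoP c) z⁻¹ 10 1 (gb_rhoP c hc) (by rw [WL.len_inv]; exact hz) q hq
    omega
  · have := hPP q hq; omega

theorem gb_patF (B : ℕ) (g z : W) (hg : WL.len g ≤ 2) (hz : WL.len z ≤ 1) (PP : Pat)
    (hPP : GB 10 PP) : GB 12 (patF B g z PP) := by
  have hr := gb_revP 10 PP z⁻¹ (by rw [WL.len_inv]; omega) hPP
  intro q hq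
  simp only [patF, List.mem_cons, List.mem_append] at hq
  rcases hq with rfl | hq | rfl | hq
  · simp only; omega
  · have := hr.2 q hq; omega
  · have := len_mul g z⁻¹
    rw [WL.len_inv] at this
    simp only; omega
  · have := hPP q hq; omega

theorem gb_patH (g : W) (hg : WL.len g ≤ 2) : GB 12 (patH g) := by
  intro q hq
  simp only [patH, List.mem_map] at hq
  obtain ⟨j, -, rfl⟩ := hq
  simp only
  split_ifs
  · omega
  · rw [WL.len_one]; omega

theorem len_xy (β : Base) : WL.len (β.x * β.y) ≤ 2 := by
  have h1 := len_mul β.x β.y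
  have h2 : WL.len β.x ≤ 1 := len_letter _ _
  have h3 : WL.len β.y ≤ 1 := len_letter _ _
  omega

theorem gb_patOf (κ : ℕ) (Tr : Base → List W → Prop) (β : Base) (r : RI) (h : Valid κ Tr β r) :
    GB KK (patOf β r) := by
  change GB 12 (patOf β r)
  cases r with
  | T c => exact gb_mono (by norm_num) (gb_rhoP c h.1.2)
  | R c z c' => exact gb_patRule c h.1.2 z (len_fac h.2.2.1) _ (gb_powP c' h.2.1.2)
  | R' c z => exact gb_patRule c h.1.2 z (len_fac h.2.1) _ (fun q hq => by simp at hq)
  | F B z c' => exact gb_patF B _ z (len_xy β) (len_fac h.2.2.1) _ (gb_powP c' h.2.1.2)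
  | F' B z => exact gb_patF B _ z (len_xy β) (len_fac h.2.1) _ (fun q hq => by simp at hq)
  | H => exact gb_patH _ (len_xy β)

/-! ### no backtracking -/

/-- no backtracking between consecutive blocks -/
def NB (q q' : Blk × W) : Prop := ¬ (q'.1 = Blk.inv q.1 ∧ q.2 = 1)

theorem nb_of_sign {q q' : Blk × W} (h : q.1.2 = q'.1.2) : NB q q' := by
  rintro ⟨h1, -⟩
  have h2 := congrArg Prod.snd h1
  simp only [Blk.inv] at h2
  rw [h2] at h
  cases hq : q.1.2 <;> simp [hq] at h

theorem nb_of_idx {q q' : Blk × W} (h : q.1.1 ≠ q'.1.1) : NB q q' := by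
  rintro ⟨h1, -⟩
  have h2 := congrArg Prod.fst h1
  simp only [Blk.inv] at h2
  exact h h2.symm

theorem chain_of_sign (l : Pat) (b : Bool) (h : ∀ q ∈ l, q.1.2 = b) : l.IsChain NB := by
  rw [List.isChain_iff_getElem]
  intro i hi
  apply nb_of_sign
  rw [h _ (List.getElem_mem _), h _ (List.getElem_mem _)]

theorem cyc_getElem (P : Pat) (a : ℤ) (i : ℕ) (hi : i < P.length) (h : a % (P.length : ℤ) = i) :
    cyc P a = P[i] := by
  unfold cyc
  rw [h, Int.toNat_natCast, List.getElem?_eq_getElem hi]
  rfl

theorem hnb_of_chain (P : Pat) (hP : P ≠ []) (h : (P ++ [P.head hP]).IsChain NB) (a : ℤ) :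
    NB (cyc P a) (cyc P (a + 1)) := by
  have hpos : 0 < P.length := List.length_pos_iff.2 hP
  have hpos' : (0 : ℤ) < (P.length : ℤ) := by exact_mod_cast hpos
  obtain ⟨i, hi⟩ : ∃ i : ℕ, a % (P.length : ℤ) = i :=
    ⟨(a % (P.length : ℤ)).toNat, (Int.toNat_of_nonneg (Int.emod_nonneg a hpos'.ne')).symm⟩
  have hil : i < P.length := by
    have := Int.emod_lt_of_pos a hpos'
    rw [hi] at this
    exact_mod_cast this
  rw [List.isChain_iff_getElem] at h
  have h1 := h i (by simp; omega)
  rw [cyc_getElem P a i hil hi]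
  rw [List.getElem_append_left hil] at h1
  by_cases hi1 : i + 1 < P.length
  · rw [cyc_getElem P (a + 1) (i + 1) hi1 (by
      rw [Int.add_emod, hi]
      rw [Int.emod_eq_of_lt (a := (1 : ℤ)) (by norm_num) (by omega)]
      rw [Int.emod_eq_of_lt (by omega) (by omega)]
      push_cast; rfl)]
    rw [List.getElem_append_left hi1] at h1
    exact h1
  · have hil' : i + 1 = P.length := by omega
    rw [cyc_getElem P (a + 1) 0 hpos (by
      rw [← Int.emod_add_emod, hi]
      have : (i : ℤ) + 1 = P.length := by exact_mod_cast hil'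
      rw [this, Int.emod_self]; rfl)]
    rw [List.getElem_append_right (by omega)] at h1
    have h2 : P.head hP = P[0] := by
      rw [List.head_eq_getElem]
    simpa [h2] using h1

theorem revP_sign (P : Pat) (hP : ∀ q ∈ P, q.1.2 = true) :
    ∀ u : W, ∀ q ∈ (revP u P).2, q.1.2 = false := by
  intro u q hq
  obtain ⟨q', hq', h⟩ := j9_revP_blk u P q hq
  rw [h]
  simp [Blk.inv, hP q' hq']

theorem revP_idx (P : Pat) (hP : ∀ q ∈ P, q.1.1 ≤ 1) :
    ∀ u : W, ∀ q ∈ (revP u P).2, q.1.1 ≤ 1 := by
  intro u q hq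
  obtain ⟨q', hq', h⟩ := j9_revP_blk u P q hq
  rw [h]
  simp [Blk.inv, hP q' hq']

theorem powP_sign (c : List W) : ∀ q ∈ powP c, q.1.2 = true := by
  intro q hq
  rcases j9_powP_blk c q hq with h | h <;> rw [h]

theorem powP_idx (c : List W) : ∀ q ∈ powP c, q.1.1 ≤ 1 := by
  intro q hq
  rcases j9_powP_blk c q hq with h | h <;> rw [h]
  norm_num

/-- general shape: `(B,+) g1`, negative part, `(B,-) g2`, positive part -/
theorem chain_shape (B : ℕ) (hB : 2 ≤ B) (g1 g2 : W) (N Pp : Pat)
    (hN : ∀ q ∈ N, q.1.2 = false) (hN1 : ∀ q ∈ N, q.1.1 ≤ 1)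
    (hP : ∀ q ∈ Pp, q.1.2 = true) (hP1 : ∀ q ∈ Pp, q.1.1 ≤ 1)
    (h1 : N = [] → g1 ≠ 1) (h2 : Pp = [] → g2 ≠ 1) (a : ℤ) :
    NB (cyc (((B, true), g1) :: (N ++ ((B, false), g2) :: Pp)) a)
      (cyc (((B, true), g1) :: (N ++ ((B, false), g2) :: Pp)) (a + 1)) := by
  apply hnb_of_chain _ (by simp)
  have e : ((((B, true), g1) :: (N ++ ((B, false), g2) :: Pp)) ++
      [(((B, true), g1) :: (N ++ ((B, false), g2) :: Pp)).head (by simp)] : Pat) =
      [((B, true), g1)] ++ ((N ++ [((B, false), g2)]) ++ (Pp ++ [((B, true), g1)])) := by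
    simp
  rw [e, List.isChain_append, List.isChain_append]
  refine ⟨by simp, ⟨?_, ?_, ?_⟩, ?_⟩
  · apply chain_of_sign _ false
    intro q hq
    rw [List.mem_append, List.mem_singleton] at hq
    rcases hq with hq | rfl
    · exact hN q hq
    · rfl
  · apply chain_of_sign _ true
    intro q hq
    rw [List.mem_append, List.mem_singleton] at hq
    rcases hq with hq | rfl
    · exact hP q hq
    · rfl
  · intro q hq q' hq'
    rw [List.getLast?_append] at hq
    simp only [List.getLast?_singleton, Option.some_or, Option.mem_def, Option.some.injEq] at hq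
    subst hq
    cases Pp with
    | nil =>
      intro h
      exact h2 rfl h.2
    | cons p Pp =>
      simp only [List.cons_append, List.head?_cons, Option.mem_def, Option.some.injEq] at hq'
      subst hq'
      apply nb_of_idx
      have := hP1 p (by simp)
      simp only; omega
  · intro q hq q' hq'
    simp only [List.getLast?_singleton, Option.mem_def, Option.some.injEq] at hq
    subst hq
    cases N with
    | nil =>
      intro h
      exact h1 rfl h.2
    | cons p N =>
      simp only [List.cons_append, List.head?_cons, Option.mem_def, Option.some.injEq] at hq'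
      subst hq'
      apply nb_of_idx
      have := hN1 p (by simp)
      simp only; omega

theorem chain_pos (P : Pat) (hP : P ≠ []) (h : ∀ q ∈ P, q.1.2 = true) (a : ℤ) :
    NB (cyc P a) (cyc P (a + 1)) := by
  apply hnb_of_chain P hP
  apply chain_of_sign _ true
  intro q hq
  rw [List.mem_append, List.mem_singleton] at hq
  rcases hq with hq | rfl
  · exact h q hq
  · exact h _ (List.head_mem hP)

theorem xy_not_fac (β : Base) : β.x * β.y ∉ Fac := by
  intro h
  have h1 := len_fac h
  have hr : Red [(β.b, β.s), (!β.b, β.t)] := by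
    refine ⟨?_, ?_⟩
    · intro p hp
      simp only [List.mem_cons, List.not_mem_nil, or_false] at hp
      rcases hp with rfl | rfl
      · exact β.hs
      · exact β.ht
    · simp
  have h2 := WL_pr hr
  rw [pr_cons, pr_cons, pr_nil, mul_one] at h2
  change WL.len (β.x * β.y) = 2 at h2
  omega

theorem nb_patOf (κ : ℕ) (Tr : Base → List W → Prop) (β : Base) (r : RI) (h : Valid κ Tr β r)
    (a : ℤ) : NB (cyc (patOf β r) a) (cyc (patOf β r) (a + 1)) := by
  have hpos : ∀ (c : List W) (z : W) (PP : Pat), (∀ q ∈ PP, q.1.2 = true) →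
      ∀ q ∈ addLast (rhoP c) z ++ PP, q.1.2 = true := by
    intro c z PP hPP q hq
    rw [List.mem_append] at hq
    rcases hq with hq | hq
    · exact j11961_addLast z (rhoP c) (j11961_rhoP c) q hq
    · exact hPP q hq
  have hidx : ∀ (c : List W) (z : W) (PP : Pat), (∀ q ∈ PP, q.1.1 ≤ 1) →
      ∀ q ∈ addLast (rhoP c) z ++ PP, q.1.1 ≤ 1 := by
    intro c z PP hPP q hq
    rw [List.mem_append] at hq
    rcases hq with hq | hq
    · obtain ⟨q', hq', h'⟩ := j9_addLast_blk (rhoP c) z q hq
      rw [h']
      rcases j9_rhoP_blk c q' hq' with h2 | h2 <;> rw [h2]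
      norm_num
    · exact hPP q hq
  have hne : ∀ (c : List W) (z : W) (PP : Pat), addLast (rhoP c) z ++ PP ≠ [] := by
    intro c z PP hc
    have := congrArg List.length hc
    rw [List.length_append, j11961_addLast_length, rhoP_length] at this
    simp at this
  cases r with
  | T c =>
    exact chain_pos _ (by simp [rhoP]) (j11961_rhoP c) a
  | R c z c' =>
    refine chain_shape 2 le_rfl _ _ _ _ (revP_sign _ (powP_sign c') _) (revP_idx _ (powP_idx c') _)
      (hpos c _ _ (powP_sign c')) (hidx c _ _ (powP_idx c')) ?_ (fun h' => absurd h' (hne _ _ _)) a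
    intro h'
    have h1 := congrArg List.length h'
    rw [revP_length] at h1
    exact absurd (List.length_eq_zero_iff.1 h1) (j11961_powP_ne c')
  | R' c z =>
    refine chain_shape 2 le_rfl _ _ _ _ (revP_sign _ (fun q hq => by simp at hq) _)
      (revP_idx _ (fun q hq => by simp at hq) _)
      (hpos c _ _ (fun q hq => by simp at hq)) (hidx c _ _ (fun q hq => by simp at hq)) ?_
      (fun h' => absurd h' (hne _ _ _)) a
    intro _
    simp only [revP, inv_inv]
    exact h.2.2
  | F B z c' =>
    refine chain_shape B (by rcases h.1 with h | h <;> omega) _ _ _ _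
      (revP_sign _ (powP_sign c') _) (revP_idx _ (powP_idx c') _)
      (powP_sign c') (powP_idx c') ?_ (fun h' => absurd h' (j11961_powP_ne c')) a
    intro h'
    have h1 := congrArg List.length h'
    rw [revP_length] at h1
    exact absurd (List.length_eq_zero_iff.1 h1) (j11961_powP_ne c')
  | F' B z =>
    refine chain_shape B (by rcases h.1 with h | h <;> omega) _ _ _ _
      (revP_sign _ (fun q hq => by simp at hq) _) (revP_idx _ (fun q hq => by simp at hq) _)
      (fun q hq => by simp at hq) (fun q hq => by simp at hq) ?_ ?_ a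
    · intro _
      simp only [revP, inv_inv]
      exact h.2.2
    · intro _ h'
      apply xy_not_fac β
      rw [mul_inv_eq_one] at h'
      rw [h']
      exact h.2.1
  | H =>
    refine chain_pos _ ?_ ?_ a
    · simp [patOf, patH, r0]
    · intro q hq
      simp only [patOf, patH, List.mem_map] at hq
      obtain ⟨j, -, rfl⟩ := hq
      rfl

theorem patOf_ne (β : Base) (r : RI) : patOf β r ≠ [] := by
  cases r <;> simp [patOf, rhoP, patRule, patF, patH, r0]

theorem R_pos (β : Base) (r : RI) : 1 ≤ ROf β r := by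
  have h := List.length_pos_iff.2 (patOf_ne β r)
  cases r <;> simp only [ROf] at * <;> omega

theorem m_bound (β : Base) (r : RI) :
    50 * ((ROf β r + 4) * (CC + jm)) ≤ mOf r * ((patOf β r).length * CC) := by
  have h := List.length_pos_iff.2 (patOf_ne β r)
  have e1 : CC + jm = 414 := rfl
  have e2 : CC = 322 := rfl
  rw [e1, e2]
  have key : ∀ L m : ℕ, 0 < L → 1000 ≤ m → 50 * ((3 * L + 4) * 414) ≤ m * (L * 322) := by
    intro L m hL hm
    calc 50 * ((3 * L + 4) * 414) ≤ 1000 * (L * 322) := by omega
      _ ≤ m * (L * 322) := Nat.mul_le_mul_right _ hm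
  have hF : ∀ B, 1000 ≤ mF B := by
    intro B; unfold mF; split_ifs <;> omega
  cases r with
  | T c => exact key _ _ h (by norm_num [mOf, n0])
  | R c z c' => exact key _ _ h (by norm_num [mOf, n0])
  | R' c z => exact key _ _ h (by norm_num [mOf, n0])
  | F B z c' => exact key _ _ h (hF B)
  | F' B z => exact key _ _ h (hF B)
  | H =>
    have : (patOf β .H).length = 1000 := by simp [patOf, patH, r0]
    rw [this]
    simp [ROf, mOf]

/-- the small cancellation theorem for the valid relators -/
theorem sc_rel (κ : ℕ) (hκ : 1 ≤ κ) (Tr : Base → List W → Prop) :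
    ∀ n ∈ Subgroup.normalClosure {g : W | ∃ β r, Valid κ Tr β r ∧ g = relOf β r},
      n ≠ 1 → 3 ≤ WL.len n := by
  let ι := {p : Base × RI // Valid κ Tr p.1 p.2}
  have h := pat_sc (ι := ι) (fun i => i.1.1) (fun i => patOf i.1.1 i.1.2) (fun i => mOf i.1.2)
    (fun i => ROf i.1.1 i.1.2) (fun i => patOf_ne _ _) (fun i => gb_patOf κ Tr _ _ i.2)
    (fun i a => nb_patOf κ Tr _ _ i.2 a) (fun i => R_pos _ _) (fun i => m_bound _ _)
    (fun i j hij a b hw => by
      obtain ⟨⟨β, r⟩, hi⟩ := i
      obtain ⟨⟨β', r'⟩, hj⟩ := j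
      simp only at hij
      subst hij
      exact PL1 κ hκ Tr β r r' hi hj a b hw)
    (fun i j hij a b hw => by
      obtain ⟨⟨β, r⟩, hi⟩ := i
      obtain ⟨⟨β', r'⟩, hj⟩ := j
      simp only at hij
      subst hij
      exact PL2 κ hκ Tr β r r' hi hj a b hw)
  have hle : Subgroup.normalClosure {g : W | ∃ β r, Valid κ Tr β r ∧ g = relOf β r} ≤
      Subgroup.normalClosure {g | ∃ i : ι, g = pv i.1.1 (patOf i.1.1 i.1.2) ^ mOf i.1.2} := by
    apply Subgroup.normalClosure_le_normal
    rintro _ ⟨β, r, hr, rfl⟩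
    obtain ⟨g, hg⟩ := relOf_conj κ hκ Tr β r hr
    rw [hg]
    apply Subgroup.Normal.conj_mem Subgroup.normalClosure_normal
    exact Subgroup.subset_normalClosure ⟨⟨(β, r), hr⟩, rfl⟩
  intro n hn
  exact h n (hle hn)

end Pool.Agent.H47.FC
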