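import Mathlib
import Pool.Agent.H47.FCgap
import Pool.Graph.R_seed8.Helper844.FC.Complete
import Pool.Graph.R_seed8.Helper844.FC.True
import Pool.Graph.R_seed8.Helper844.FC.Comp
set_option autoImplicit false
namespace Pool.Agent.H47.FC

open Pool.Agent.Helper844.FC Pool.Agent.Helper844.Sys

/-! The union of the two factors is closed under the words of the list, in the quotient. -/

theorem one_fac : (1 : W) ∈ Fac := ⟨true, 0, (letter_zero true).symm⟩

theorem inv_fac {x : W} (hx : x ∈ Fac) : x⁻¹ ∈ Fac := by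
  obtain ⟨b, k, rfl⟩ := hx
  exact ⟨b, -k, letter_inv b k⟩

theorem zpow_fac {x : W} (hx : x ∈ Fac) (n : ℤ) : x ^ n ∈ Fac := by
  obtain ⟨b, k, rfl⟩ := hx
  exact ⟨b, k * n, letter_zpow b k n⟩

theorem pow_fac {x : W} (hx : x ∈ Fac) (n : ℕ) : x ^ n ∈ Fac := by
  rw [← zpow_natCast]; exact zpow_fac hx n

theorem dich {x y : W} (hx : x ∈ Fac) (hy : y ∈ Fac) :
    (x * y = y * x ∧ x * y ∈ Fac) ∨ ∃ β : Base, x = β.x ∧ y = β.y := by
  obtain ⟨b, k, rfl⟩ := hx
  obtain ⟨c, l, rfl⟩ := hy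
  by_cases hk : k = 0
  · left
    subst hk
    rw [letter_zero, one_mul, mul_one]
    exact ⟨rfl, c, l, rfl⟩
  by_cases hl : l = 0
  · left
    subst hl
    rw [letter_zero, one_mul, mul_one]
    exact ⟨rfl, b, k, rfl⟩
  by_cases hbc : b = c
  · left
    subst hbc
    rw [letter_mul, letter_mul, add_comm]
    exact ⟨rfl, b, _, rfl⟩
  · right
    have hc : c = !b := by
      cases b <;> cases c <;> simp_all
    subst hc
    exact ⟨⟨b, k, l, hk, hl⟩, rfl, rfl⟩

/-- the normal subgroup generated by the relators -/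
def NN0 (κ : ℕ) (Tr : Base → List W → Prop) : Subgroup W :=
  Subgroup.normalClosure {g : W | ∃ β r, Valid κ Tr β r ∧ g = relOf β r}

instance (κ : ℕ) (Tr : Base → List W → Prop) : (NN0 κ Tr).Normal := Subgroup.normalClosure_normal

theorem mem_N {κ : ℕ} {Tr : Base → List W → Prop} {β : Base} {r : RI} (h : Valid κ Tr β r) :
    relOf β r ∈ NN0 κ Tr := Subgroup.subset_normalClosure ⟨β, r, h, rfl⟩

theorem mk_pow_congr (N : Subgroup W) [N.Normal] (A B : W) (n : ℕ)
    (h : ((A : W) : W ⧸ N) = ((B : W) : W ⧸ N)) :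
    ((A ^ n : W) : W ⧸ N) = ((B ^ n : W) : W ⧸ N) := by
  rw [QuotientGroup.mk_pow, QuotientGroup.mk_pow, h]

theorem mk_brk_congr (N : Subgroup W) [N.Normal] (z c B : W) (hc : ((c : W) : W ⧸ N) = 1) :
    ((brk (z⁻¹ * c) B : W) : W ⧸ N) = ((brk z⁻¹ B : W) : W ⧸ N) := by
  unfold brk
  simp only [QuotientGroup.mk_mul, QuotientGroup.mk_inv, mul_inv_rev, hc, inv_one, one_mul,
    mul_one]

theorem rule_mem {κ : ℕ} {Tr : Base → List W → Prop} {β : Base} {cin cout : List W} {z : W}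
    (h1 : Adm κ cin) (h2 : Adm κ cout) (hz : z ∈ Fac) (h : Tr β cin → Tr β cout) :
    ruleV cin cout z β.x β.y ∈ NN0 κ Tr := by
  by_cases ht : Tr β cin
  · have hc : rho cin β.x β.y ^ n0 ∈ NN0 κ Tr := mem_N (r := .T cin) ⟨h1, ht⟩
    rw [← QuotientGroup.eq_one_iff] at hc ⊢
    have e : ((ruleV cin cout z β.x β.y : W) : W ⧸ NN0 κ Tr) =
        (((rho cout β.x β.y * brk z⁻¹ (D 2 β.x β.y)) ^ n0 : W) : W ⧸ NN0 κ Tr) := by
      apply mk_pow_congr
      rw [QuotientGroup.mk_mul, QuotientGroup.mk_mul _ _ (brk z⁻¹ (D 2 β.x β.y))]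
      exact congrArg _ (mk_brk_congr _ _ _ _ hc)
    rw [e, QuotientGroup.eq_one_iff]
    by_cases hz1 : z = 1
    · subst hz1
      rw [inv_one, K2_brk_one_left, mul_one]
      exact mem_N (r := .T cout) ⟨h2, h ht⟩
    · exact mem_N (r := .R' cout z) ⟨h2, hz, hz1⟩
  · exact mem_N (r := .R cout z cin) ⟨h2, h1, hz, ht⟩

theorem adm_tup {d : ℕ} {e : ℕ} {x : W} {n : Fin d → W} {q r w : W} (hx : x ∈ Fac)
    (hn : ∀ j, n j ∈ Fac) (hq : WL.len q ≤ 5) (hr : WL.len r ≤ 5) (hw : WL.len w ≤ 5) :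
    Adm (d + 4) (tup e x n q r w) := by
  refine ⟨tup_length e x n q r w, ?_⟩
  intro u hu
  rcases mem_tup hu with rfl | ⟨j, rfl⟩ | rfl | rfl | rfl
  · have := len_fac (pow_fac hx e); omega
  · have := len_fac (hn j); omega
  · exact hq
  · exact hr
  · exact hw

theorem len_wlast {d : ℕ} (Q : Eqn (Fin d)) {x : W} {n : Fin d → W} {r : W} (hx : x ∈ Fac)
    (hn : ∀ j, n j ∈ Fac) (hr : r ∈ Fac) : WL.len (wlast Q x n r) ≤ 5 := by
  unfold wlast
  have h1 := len_fac (zpow_fac hr Q.e)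
  have h2 := len_fac (zpow_fac (hn Q.k) Q.a)
  have h3 := len_fac (zpow_fac (hn Q.l) Q.b)
  have h4 := len_fac (zpow_fac (hn Q.m) Q.c)
  have h5 := len_fac (zpow_fac hx Q.d)
  have a1 := len_mul (r ^ Q.e) (n Q.k ^ Q.a)
  have a2 := len_mul (r ^ Q.e * n Q.k ^ Q.a) (n Q.l ^ Q.b)
  have a3 := len_mul (r ^ Q.e * n Q.k ^ Q.a * n Q.l ^ Q.b) (n Q.m ^ Q.c)
  have a4 := len_mul (r ^ Q.e * n Q.k ^ Q.a * n Q.l ^ Q.b * n Q.m ^ Q.c) (x ^ Q.d)
  omega

section
variable {d : ℕ} (L : List (Eqn (Fin d))) (f : Fin d) (n : ℕ)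

/-- the values of the words of the list on the factors are, modulo the relators, in the factors -/
theorem closed_aux (hno : ¬ ∃ z : Fin d → ℤ, (∀ Q ∈ L, Q.Holds z) ∧ z f = 1 - 4 * n)
    (w : Word) (hw : w ∈ theList (extL L) f n) (u : ℕ → W) (hu : ∀ i, u i ∈ Fac) :
    ∃ s ∈ Fac, ((wEval u w : W) : W ⧸ NN0 (d + 4) (TrS (extL L))) = (s : W) := by
  have hone : ∀ g : W, g ∈ NN0 (d + 4) (TrS (extL L)) →
      ∃ s ∈ Fac, ((g : W) : W ⧸ NN0 (d + 4) (TrS (extL L))) = (s : W) := by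
    intro g hg
    refine ⟨1, one_fac, ?_⟩
    rw [(QuotientGroup.eq_one_iff g).2 hg]
    rfl
  have hn5 : ∀ j : Fin d, (fun j : Fin d => u (5 + j)) j ∈ Fac := fun j => hu _
  have l1 : ∀ i, WL.len (u i) ≤ 5 := fun i => (len_fac (hu i)).trans (by norm_num)
  have l0 : WL.len (1 : W) ≤ 5 := by rw [WL.len_one]; norm_num
  have l2 : ∀ a b : W, a ∈ Fac → b ∈ Fac → WL.len (a * b) ≤ 5 := by
    intro a b ha hb
    have := len_mul a b
    have := len_fac ha
    have := len_fac hb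
    omega
  rw [mem_theList] at hw
  rcases hw with hw | hw | hw | ⟨e, Q, hQ, hw | hw | hw⟩ | hw | hw
  · rw [hw, val_inv]
    exact ⟨_, inv_fac (hu 0), rfl⟩
  · rw [hw, val_h]
    rcases dich (hu 0) (hu 1) with ⟨hc, hf⟩ | ⟨β, hx, hy⟩
    · rw [hval_comm _ _ hc]
      exact ⟨_, hf, rfl⟩
    · rw [hx, hy]
      have hH := mem_N (κ := d + 4) (Tr := TrS (extL L)) (β := β) (r := .H) trivial
      simp only [relOf] at hH
      exact hone _ hH
  · rw [hw, val_start]
    rcases dich (hu 0) (hu 1) with ⟨hc, hf⟩ | ⟨β, hx, hy⟩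
    · unfold cert
      rw [rho_comm _ _ _ hc, one_pow]
      exact ⟨1, one_fac, rfl⟩
    · rw [hx, hy]
      refine hone _ (mem_N (β := β) (r := .T _) ⟨?_, TrS_start _ _ _⟩)
      exact adm_tup (hx ▸ hu 0) hn5 l0 l0 l0
  · rw [hw, val_up]
    rcases dich (hu 0) (hu 1) with ⟨hc, hf⟩ | ⟨β, hx, hy⟩
    · rw [ruleV_comm _ _ _ _ _ hc]
      exact ⟨1, one_fac, rfl⟩
    · have hx0 := hu 0
      rw [hx] at hx0
      rw [hx, hy]
      refine hone _ (rule_mem ?_ ?_ (hu 2) ?_)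
      · exact adm_tup hx0 hn5 (l1 3) (l1 4) l0
      · exact adm_tup hx0 hn5 (l2 _ _ (hu 3) hx0) (l2 _ _ (hu 4) (hu _)) l0
      · exact TrS_up (n := fun j : Fin d => u (5 + j)) hQ
  · rw [hw, val_down]
    rcases dich (hu 0) (hu 1) with ⟨hc, hf⟩ | ⟨β, hx, hy⟩
    · rw [ruleV_comm _ _ _ _ _ hc]
      exact ⟨1, one_fac, rfl⟩
    · have hx0 := hu 0
      rw [hx] at hx0
      rw [hx, hy]
      refine hone _ (rule_mem ?_ ?_ (hu 2) ?_)
      · exact adm_tup hx0 hn5 (l1 3) (l1 4) l0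
      · exact adm_tup hx0 hn5 (l2 _ _ (hu 3) (inv_fac hx0)) (l2 _ _ (hu 4) (inv_fac (hu _))) l0
      · exact TrS_down (n := fun j : Fin d => u (5 + j)) hQ
  · rw [hw, val_next]
    rcases dich (hu 0) (hu 1) with ⟨hc, hf⟩ | ⟨β, hx, hy⟩
    · rw [ruleV_comm _ _ _ _ _ hc]
      exact ⟨1, one_fac, rfl⟩
    · have hx0 := hu 0
      rw [hx] at hx0
      rw [hx, hy]
      refine hone _ (rule_mem ?_ ?_ (hu 2) ?_)
      · exact adm_tup hx0 hn5 (l1 _) (l1 4) (len_wlast Q hx0 hn5 (hu 4))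
      · exact adm_tup hx0 hn5 l0 l0 l0
      · exact TrS_next (n := fun j : Fin d => u (5 + j)) hQ
  all_goals
    rw [hw, val_fin]
    rcases dich (hu 0) (hu 1) with ⟨hc, hf⟩ | ⟨β, hx, hy⟩
    · rw [finV_comm _ _ _ _ _ hc]
      exact ⟨_, pow_fac hf _, rfl⟩
    · have hx0 := hu 0
      rw [hx] at hx0
      rw [hx, hy]
      have hn6 : ∀ j, Function.update (fun j : Fin d => u (5 + j)) f (β.x ^ (1 - 4 * n : ℤ)) j
          ∈ Fac := by
        intro j
        rw [Function.update_apply]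
        split_ifs
        · exact zpow_fac hx0 _
        · exact hu _
      refine hone _ (mem_N (β := β) (r := .F _ (u 2) _) ⟨?_, ?_, hu 2, ?_⟩)
      · simp
      · exact adm_tup hx0 hn6 l0 l0 l0
      · intro ht
        obtain ⟨z, hz, hL⟩ := TrS_final ht
        apply hno
        refine ⟨z, hL, ?_⟩
        have h1 := hz f
        rw [Function.update_self] at h1
        exact (β.x_zpow_inj h1).symm

/-- if the system has no solution then the list is not complete on some group -/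
theorem not_complete (hno : ¬ ∃ z : Fin d → ℤ, (∀ Q ∈ L, Q.Holds z) ∧ z f = 1 - 4 * n) :
    ¬ FunctionallyComplete (W ⧸ NN0 (d + 4) (TrS (extL L))) (theList (extL L) f n) := by
  intro hc
  let S : Set (W ⧸ NN0 (d + 4) (TrS (extL L))) := {g | ∃ s ∈ Fac, g = (s : W)}
  have hS : ∀ w ∈ theList (extL L) f n, ∀ v : ℕ → W ⧸ NN0 (d + 4) (TrS (extL L)),
      (∀ i, v i ∈ S) → wEval v w ∈ S := by
    intro w hw v hv
    choose u hu huv using hv
    have e : wEval v w = ((wEval u w : W) : W ⧸ NN0 (d + 4) (TrS (extL L))) := by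
      have h := wEval_map (QuotientGroup.mk' (NN0 (d + 4) (TrS (extL L)))) u w
      rw [QuotientGroup.mk'_apply] at h
      rw [h]
      congr 1
      funext i
      rw [huv i]
      rfl
    rw [e]
    exact closed_aux L f n hno w hw u hu
  have h := Produced.closed S hS (hc [(0, true), (1, true)])
    (fun i => ((if i = 0 then letter true 1 else letter false 1 : W) :
      W ⧸ NN0 (d + 4) (TrS (extL L)))) (by
      intro i
      refine ⟨_, ?_, rfl⟩
      split_ifs
      · exact ⟨true, 1, rfl⟩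
      · exact ⟨false, 1, rfl⟩)
  rw [wEval_cons, wEval_cons, wEval_nil, mul_one] at h
  simp only [if_true, one_ne_zero, if_false] at h
  obtain ⟨s, hs, h⟩ := h
  rw [← QuotientGroup.mk_mul] at h
  have hxy : letter true 1 * letter false 1 ∉ Fac :=
    xy_not_fac ⟨true, 1, 1, one_ne_zero, one_ne_zero⟩
  have hsc := sc_rel (d + 4) (by omega) (TrS (extL L))
  obtain ⟨b, k, rfl⟩ := hs
  cases b with
  | true =>
    rw [eq_comm, QuotientGroup.eq] at h
    have h1 := hsc _ h (by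
      intro h2
      apply hxy
      rw [inv_mul_eq_one] at h2
      rw [← h2]
      exact ⟨true, k, rfl⟩)
    rw [← mul_assoc, letter_inv, letter_mul] at h1
    have h2 := len_mul (letter true (-k + 1)) (letter false 1)
    have h3 := len_letter true (-k + 1)
    have h4 := len_letter false 1
    omega
  | false =>
    rw [QuotientGroup.eq_iff_div_mem] at h
    have h1 := hsc _ h (by
      intro h2
      apply hxy
      rw [div_eq_one] at h2
      rw [h2]
      exact ⟨false, k, rfl⟩)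
    rw [div_eq_mul_inv, mul_assoc, letter_inv, letter_mul] at h1
    have h2 := len_mul (letter true 1) (letter false (1 + -k))
    have h3 := len_letter true 1
    have h4 := len_letter false (1 + -k)
    omega

end

end Pool.Agent.H47.FC
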